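import Pool.Agent.Lib.MP_e46711_an.H24.Corr
import Pool.Agent.Lib.MP_e46711_an.H34.A3
import Pool.Agent.Lib.MP_e46711_an.H82.Basic
import Pool.Agent.Lib.MP_e46711_an.DefsA2

/-!
# Module A4, part 3: the transfer of `Facts2D` to the domain
-/

open Set Filter Topology MeasureTheory
open scoped ContDiff ENNReal

namespace Pool.Agent.Lib.MP_e46711_an.H24

theorem Bil_smul (ℓ : ℝ) (h : ℝ → ℝ) (δ c : ℝ) (V W V' W' : ℝ × ℝ → ℝ) :
    Bil ℓ h δ (fun z => c * V z) (fun z => c * W z) V' W' = c * Bil ℓ h δ V W V' W' := by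
  unfold Bil
  rw [← integral_const_mul]
  refine integral_congr_ae (Eventually.of_forall fun z => ?_)
  simp only [G1, G2]
  ring

theorem alg {X A B K lam κ q l δ : ℝ} (hK : K ≠ 0) (hlam : lam ≠ 0) (hκ : κ ≠ 0) (hδ : δ ≠ 0)
    (e1 : lam * K = 2 * δ * l) (e2 : q = κ * lam) :
    (-1 * (2 * δ * X) + lam * (K * A) - K * B = 0) ↔ κ⁻¹ * X = l * (κ⁻¹ * A - q⁻¹ * B) := by
  have hl : l = lam * K / (2 * δ) := by rw [e1]; field_simp
  subst hl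
  subst e2
  constructor
  · intro h
    have h2 : X = (lam * (K * A) - K * B) / (2 * δ) := by
      rw [eq_div_iff (by positivity)]; linarith
    rw [h2]
    field_simp
  · intro h
    field_simp at h
    linear_combination (-1) * h

/-- strict Jensen -/
theorem jensen {α : Type*} [MeasurableSpace α] {μ : Measure α} [IsProbabilityMeasure μ] {p : ℝ}
    (hp0 : 0 < p) (hp1 : p < 1) {u : α → ℝ} (hu : MemLp u 2 μ) (hpos : ∀ᵐ x ∂μ, 0 < u x)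
    (hc : ¬ ∃ k : ℝ, ∀ᵐ x ∂μ, u x = k) :
    (∫ x, |u x| ^ (p + 1) ∂μ) ^ (2 / (p + 1)) < ∫ x, u x ^ 2 ∂μ := by
  have hq : 0 < p + 1 := by linarith
  have hq2 : 1 < 2 / (p + 1) := by rw [lt_div_iff₀ hq]; linarith
  have hg := strictConvexOn_rpow hq2
  have hgc : ContinuousOn (fun x : ℝ => x ^ (2 / (p + 1))) (Ici 0) :=
    (Real.continuous_rpow_const (by linarith)).continuousOn
  have e1 : ∀ x, (|u x| ^ (p + 1)) ^ (2 / (p + 1)) = u x ^ 2 := by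
    intro x
    rw [← Real.rpow_mul (abs_nonneg _), mul_div_cancel₀ _ hq.ne', Real.rpow_two, sq_abs]
  have hfi : Integrable (fun x => |u x| ^ (p + 1)) μ := by
    have h1 : Integrable (fun x => 1 + u x ^ 2) μ := (integrable_const 1).add hu.integrable_sq
    refine h1.mono' ((hu.1.aemeasurable.abs).pow_const (p + 1)).aestronglyMeasurable ?_
    refine Eventually.of_forall fun x => ?_
    rw [Real.norm_eq_abs, abs_of_nonneg (Real.rpow_nonneg (abs_nonneg _) _)]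
    rcases le_total |u x| 1 with h | h
    · have := Real.rpow_le_one (abs_nonneg (u x)) h hq.le
      nlinarith [sq_nonneg (u x)]
    · have := Real.rpow_le_rpow_of_exponent_le h (show p + 1 ≤ 2 by linarith)
      rw [Real.rpow_two, sq_abs] at this
      linarith
  have hgi : Integrable ((fun x : ℝ => x ^ (2 / (p + 1))) ∘ fun x => |u x| ^ (p + 1)) μ := by
    refine hu.integrable_sq.congr (Eventually.of_forall fun x => ?_)
    exact (e1 x).symm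
  have h1 := hg.ae_eq_const_or_map_average_lt hgc isClosed_Ici
    (Eventually.of_forall fun x => Real.rpow_nonneg (abs_nonneg (u x)) (p + 1)) hfi hgi
  rw [average_eq_integral, average_eq_integral] at h1
  rcases h1 with h1 | h1
  · exfalso
    refine hc ⟨(∫ x, |u x| ^ (p + 1) ∂μ) ^ (1 / (p + 1)), ?_⟩
    filter_upwards [h1, hpos] with x hx hx0
    have hx' : |u x| ^ (p + 1) = ∫ x, |u x| ^ (p + 1) ∂μ := hx
    rw [← hx', ← Real.rpow_mul (abs_nonneg _), mul_one_div_cancel hq.ne', Real.rpow_one,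
      abs_of_pos hx0]
  · simpa only [e1] using h1

namespace Dat

variable {ℓ : ℝ} {h : ℝ → ℝ} {δ ρ : ℝ} (D : Dat ℓ h δ ρ)
include D

/-- transfer of almost everywhere statements -/
theorem ae_iff {u : PL → ℝ} (hu : MemLp u 2 (volume.restrict (Om ℓ h δ ρ))) {S : Set ℝ}
    (hS : MeasurableSet S) : (∀ᵐ x ∂(volume.restrict (Om ℓ h δ ρ)), u x ∈ S) ↔
      ∀ᵐ z ∂muT ℓ, u (Fmap ℓ h δ ρ z) ∈ S := by
  classical
  have := D.finMeas
  have hm : Measurable (fun t : ℝ => Sᶜ.indicator (fun _ => (1:ℝ)) t) :=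
    measurable_const.indicator hS.compl
  have h0 : ∀ t : ℝ, 0 ≤ Sᶜ.indicator (fun _ => (1:ℝ)) t := fun t =>
    indicator_nonneg (fun _ _ => zero_le_one) t
  have hb : ∀ t : ℝ, ‖Sᶜ.indicator (fun _ => (1:ℝ)) t‖ ≤ 1 := by
    intro t
    by_cases ht : t ∈ Sᶜ
    · rw [indicator_of_mem ht]; simp
    · rw [indicator_of_notMem ht]; simp
  have hz : ∀ t : ℝ, t ∈ S ↔ Sᶜ.indicator (fun _ => (1:ℝ)) t = 0 := by
    intro t
    by_cases ht : t ∈ S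
    · rw [indicator_of_notMem (by simpa using ht)]; simp [ht]
    · rw [indicator_of_mem (by simpa using ht)]; simp [ht]
  set f : PL → ℝ := fun x => Sᶜ.indicator (fun _ => (1:ℝ)) (u x) with hf
  have hfL : MemLp f 2 (volume.restrict (Om ℓ h δ ρ)) :=
    MemLp.of_bound (hm.comp_aemeasurable hu.1.aemeasurable).aestronglyMeasurable 1
      (Eventually.of_forall fun x => hb _)
  have hfT : MemLp (fun z => f (Fmap ℓ h δ ρ z)) 2 (muT ℓ) := (D.mem f).1 hfL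
  have hfi : Integrable f (volume.restrict (Om ℓ h δ ρ)) := hfL.integrable (by norm_num)
  have hfTi : Integrable (fun z => f (Fmap ℓ h δ ρ z) * wt ℓ h δ z) (muT ℓ) :=
    integrable_mulc (hfT.integrable (by norm_num)) D.wt_cont
  have e := D.int' f
  have k1 : (∀ᵐ x ∂(volume.restrict (Om ℓ h δ ρ)), u x ∈ S) ↔
      f =ᵐ[volume.restrict (Om ℓ h δ ρ)] 0 :=
    eventually_congr (Eventually.of_forall fun x => hz (u x))
  have k2 : (∀ᵐ z ∂muT ℓ, u (Fmap ℓ h δ ρ z) ∈ S) ↔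
      (fun z => f (Fmap ℓ h δ ρ z) * wt ℓ h δ z) =ᵐ[muT ℓ] 0 := by
    refine eventually_congr (Eventually.of_forall fun z => ?_)
    rw [hz]
    have := (D.wt_pos z).ne'
    simp only [Pi.zero_apply, mul_eq_zero, this, or_false, hf]
  rw [k1, k2, ← integral_eq_zero_iff_of_nonneg (fun x => h0 (u x)) hfi,
    ← integral_eq_zero_iff_of_nonneg (fun z => mul_nonneg (h0 _) (D.wt_pos z).le) hfTi, e, mul_eq_zero]
  simp only [D.KK_pos.ne', false_or]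
  exact Iff.rfl

theorem Bil_grad {V W Φ : ℝ × ℝ → ℝ} {φ : PL → ℝ} (hφ : ContDiff ℝ 1 φ)
    (he : ∀ s, ∀ y ∈ Ioo (-1:ℝ) 1, φ (Fmap ℓ h δ ρ (s, y)) = Φ (s, y)) :
    Bil ℓ h δ V W (pbS ℓ h δ ρ (gradient φ)) (pbY ℓ h δ ρ (gradient φ)) =
      Bil ℓ h δ V W (dS Φ) (dY Φ) := by
  unfold Bil
  refine integral_congr_ae ?_
  filter_upwards [ae_cell ℓ] with z hz
  obtain ⟨e1, e2⟩ := D.ext_deriv hφ he hz
  have e1' : pbS ℓ h δ ρ (gradient φ) z = dS Φ z := e1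
  have e2' : pbY ℓ h δ ρ (gradient φ) z = dY Φ z := e2
  simp only [G1, G2, e1', e2']

theorem int_lin {U Φ : ℝ × ℝ → ℝ} (hU : MemLp U 2 (muT ℓ)) (hΦ : Continuous Φ) :
    Integrable (fun z => U z * Φ z * wt ℓ h δ z) (muT ℓ) :=
  integrable_mulc (integrable_mulc (hU.integrable (by norm_num)) hΦ) D.wt_cont

theorem int_pow {p : ℝ} (hp0 : 0 < p) (hp1 : p < 1) {U Φ : ℝ × ℝ → ℝ} (hU : MemLp U 2 (muT ℓ))
    (hpos : ∀ᵐ z ∂muT ℓ, 0 < U z) (hΦ : Continuous Φ) :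
    Integrable (fun z => U z ^ p * Φ z * wt ℓ h δ z) (muT ℓ) := by
  refine integrable_mulc (integrable_mulc ?_ hΦ) D.wt_cont
  have h1 : Integrable (fun z => 1 + ‖U z‖) (muT ℓ) :=
    (integrable_const 1).add (hU.integrable (by norm_num)).norm
  refine h1.mono' (hU.1.aemeasurable.pow_const p).aestronglyMeasurable ?_
  filter_upwards [hpos] with z hz
  rw [Real.norm_eq_abs, abs_of_nonneg (Real.rpow_nonneg hz.le p), Real.norm_eq_abs, abs_of_pos hz]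
  rcases le_total (U z) 1 with h | h
  · have := Real.rpow_le_one hz.le h hp0.le
    linarith
  · have := Real.rpow_le_rpow_of_exponent_le h hp1.le
    rw [Real.rpow_one] at this
    linarith

theorem Inu_gg {p κ : ℝ} (hp0 : 0 < p) (hp1 : p < 1) (hκ : 0 < κ) {U Φ : ℝ × ℝ → ℝ}
    (hU : MemLp U 2 (muT ℓ)) (hpos : ∀ᵐ z ∂muT ℓ, 0 < U z) (hΦ : Continuous Φ) :
    Inu ℓ h δ (fun z => gg p (κ⁻¹ * U z) * Φ z) =
      κ⁻¹ * (∫ z, U z * Φ z * wt ℓ h δ z ∂muT ℓ) -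
        (κ ^ p)⁻¹ * ∫ z, U z ^ p * Φ z * wt ℓ h δ z ∂muT ℓ := by
  unfold Inu
  rw [← integral_const_mul, ← integral_const_mul, ← integral_sub
    ((D.int_lin hU hΦ).const_mul _) ((D.int_pow hp0 hp1 hU hpos hΦ).const_mul _)]
  refine integral_congr_ae ?_
  filter_upwards [hpos] with z hz
  have h1 : 0 ≤ κ⁻¹ * U z := by positivity
  rw [gg_of_nonneg hp0 h1, Real.mul_rpow (inv_nonneg.2 hκ.le) hz.le, Real.inv_rpow hκ.le]
  unfold wt
  ring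

omit D in
theorem sgn {p : ℝ} (hp1 : p < 1) : (p - 1) / |p - 1| = -1 := by
  rw [abs_of_neg (by linarith)]
  have : p - 1 ≠ 0 := by linarith
  field_simp

/-- solutions on the domain give solutions on the strip -/
theorem sol_fwd {p l lam κ : ℝ} (hp0 : 0 < p) (hp1 : p < 1) (hκ : 0 < κ)
    (hlam0 : 0 < lam) (hlam : lam * KK ℓ δ ρ = 2 * δ * l) (hκl : κ ^ p = κ * lam) {u : PL → ℝ}
    (H : PosSol (Om ℓ h δ ρ) p lam u) : (∀ᵐ z ∂muT ℓ, 0 < κ⁻¹ * u (Fmap ℓ h δ ρ z)) ∧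
      ∃ V W, WSol p l ℓ h δ (fun z => κ⁻¹ * u (Fmap ℓ h δ ρ z)) V W := by
  obtain ⟨hu, G, hG, heq⟩ := H
  have hU : MemLp (fun z => u (Fmap ℓ h δ ρ z)) 2 (muT ℓ) := (D.mem u).1 hG.mu
  have hpos : ∀ᵐ z ∂muT ℓ, 0 < u (Fmap ℓ h δ ρ z) :=
    (D.ae_iff hG.mu (S := Ioi 0) measurableSet_Ioi).1 hu
  refine ⟨?_, fun z => κ⁻¹ * pbS ℓ h δ ρ G z, fun z => κ⁻¹ * pbY ℓ h δ ρ G z,
    H7.h1t_smul κ⁻¹ (D.fwd hG), ?_⟩
  · filter_upwards [hpos] with z hz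
    positivity
  intro Φ hΦ
  obtain ⟨φ, hφ, he⟩ := D.ext Φ hΦ
  have e := heq φ hφ
  rw [sgn hp1, D.inn, D.int', D.int', D.Bil_grad hφ he] at e
  have c1 : ∫ z, u (Fmap ℓ h δ ρ z) * φ (Fmap ℓ h δ ρ z) * wt ℓ h δ z ∂muT ℓ =
      ∫ z, u (Fmap ℓ h δ ρ z) * Φ z * wt ℓ h δ z ∂muT ℓ := by
    refine integral_congr_ae ?_
    filter_upwards [ae_cell ℓ] with z hz
    rw [show φ (Fmap ℓ h δ ρ z) = Φ z from he z.1 z.2 hz.2]
  have c2 : ∫ z, u (Fmap ℓ h δ ρ z) ^ p * φ (Fmap ℓ h δ ρ z) * wt ℓ h δ z ∂muT ℓ =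
      ∫ z, u (Fmap ℓ h δ ρ z) ^ p * Φ z * wt ℓ h δ z ∂muT ℓ := by
    refine integral_congr_ae ?_
    filter_upwards [ae_cell ℓ] with z hz
    rw [show φ (Fmap ℓ h δ ρ z) = Φ z from he z.1 z.2 hz.2]
  rw [c1, c2] at e
  rw [Bil_smul, D.Inu_gg hp0 hp1 hκ hU hpos hΦ.1.continuous]
  exact (alg D.KK_pos.ne' hlam0.ne' hκ.ne' D.hδ.ne' hlam hκl).1 e

/-- solutions on the strip give solutions on the domain -/
theorem sol_bwd {p l lam κ : ℝ} (hp0 : 0 < p) (hp1 : p < 1) (hκ : 0 < κ)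
    (hlam0 : 0 < lam) (hlam : lam * KK ℓ δ ρ = 2 * δ * l) (hκl : κ ^ p = κ * lam)
    {U V W : ℝ × ℝ → ℝ} (H : WSol p l ℓ h δ U V W) (hpos : ∀ᵐ z ∂muT ℓ, 0 < U z) :
    InH1 (Om ℓ h δ ρ) (fun x => κ * U (inv ℓ h δ ρ x))
      (VF ℓ h δ ρ (fun z => κ * V z) (fun z => κ * W z)) ∧
    PosSol (Om ℓ h δ ρ) p lam (fun x => κ * U (inv ℓ h δ ρ x)) := by
  have hG := D.bwd (H7.h1t_smul κ H.h1)
  refine ⟨hG, ?_, _, hG, ?_⟩
  · refine (D.ae_iff hG.mu (S := Ioi 0) measurableSet_Ioi).2 ?_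
    filter_upwards [hpos, ae_cell ℓ] with z hz hz'
    rw [D.inv_F hz']
    exact mul_pos hκ hz
  intro φ hφ
  have hΦ := D.C1per_comp hφ
  have e := H.eq _ hΦ
  have hκU : MemLp (fun z => κ * U z) 2 (muT ℓ) := H.h1.mU.const_mul κ
  have hκpos : ∀ᵐ z ∂muT ℓ, 0 < κ * U z := by
    filter_upwards [hpos] with z hz
    exact mul_pos hκ hz
  have g := D.Inu_gg (δ := δ) hp0 hp1 hκ hκU hκpos hΦ.1.continuous
  have g1 : (fun z => gg p (κ⁻¹ * (κ * U z)) * φ (Fmap ℓ h δ ρ z)) =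
      fun z => gg p (U z) * φ (Fmap ℓ h δ ρ z) := by
    funext z
    rw [inv_mul_cancel_left₀ hκ.ne']
  rw [g1] at g
  rw [g] at e
  have b1 : Bil ℓ h δ V W (dS fun z => φ (Fmap ℓ h δ ρ z)) (dY fun z => φ (Fmap ℓ h δ ρ z)) =
      κ⁻¹ * Bil ℓ h δ (fun z => κ * V z) (fun z => κ * W z) (dS fun z => φ (Fmap ℓ h δ ρ z))
        (dY fun z => φ (Fmap ℓ h δ ρ z)) := by
    rw [Bil_smul, inv_mul_cancel_left₀ hκ.ne']
  rw [b1] at e
  have e' := (alg D.KK_pos.ne' hlam0.ne' hκ.ne' D.hδ.ne' hlam hκl).2 e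
  rw [sgn hp1, D.inn, D.int', D.int', D.Bil_grad hφ (Φ := fun z => φ (Fmap ℓ h δ ρ z))
    (fun _ _ _ => rfl)]
  have c0 : Bil ℓ h δ (pbS ℓ h δ ρ (VF ℓ h δ ρ (fun z => κ * V z) (fun z => κ * W z)))
      (pbY ℓ h δ ρ (VF ℓ h δ ρ (fun z => κ * V z) (fun z => κ * W z)))
      (dS fun z => φ (Fmap ℓ h δ ρ z)) (dY fun z => φ (Fmap ℓ h δ ρ z)) =
      Bil ℓ h δ (fun z => κ * V z) (fun z => κ * W z) (dS fun z => φ (Fmap ℓ h δ ρ z))
        (dY fun z => φ (Fmap ℓ h δ ρ z)) := by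
    unfold Bil
    refine integral_congr_ae ?_
    filter_upwards [ae_cell ℓ] with z hz
    simp only [G1, G2, D.pbS_VF _ _ hz, D.pbY_VF _ _ hz]
  have c1 : ∫ z, κ * U (inv ℓ h δ ρ (Fmap ℓ h δ ρ z)) * φ (Fmap ℓ h δ ρ z) * wt ℓ h δ z ∂muT ℓ =
      ∫ z, κ * U z * φ (Fmap ℓ h δ ρ z) * wt ℓ h δ z ∂muT ℓ := by
    refine integral_congr_ae ?_
    filter_upwards [ae_cell ℓ] with z hz
    rw [D.inv_F hz]
  have c2 : ∫ z, (κ * U (inv ℓ h δ ρ (Fmap ℓ h δ ρ z))) ^ p * φ (Fmap ℓ h δ ρ z) * wt ℓ h δ z ∂muT ℓ =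
      ∫ z, (κ * U z) ^ p * φ (Fmap ℓ h δ ρ z) * wt ℓ h δ z ∂muT ℓ := by
    refine integral_congr_ae ?_
    filter_upwards [ae_cell ℓ] with z hz
    rw [D.inv_F hz]
  rw [c0, c1, c2]
  exact e'

theorem norm_pos : 0 < Inu ℓ h δ (fun _ => 1) := by
  obtain ⟨c, hc, hc'⟩ := exists_lb D.wt_cont D.wt_pos ℓ
  have h1 : ∫ _, c ∂muT ℓ ≤ Inu ℓ h δ (fun _ => 1) := by
    unfold Inu
    refine integral_mono_ae (integrable_const c) ?_ ?_
    · have := integrable_mulc (integrable_const (μ := muT ℓ) (1:ℝ)) D.wt_cont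
      exact this
    · filter_upwards [ae_cell ℓ] with z hz
      rw [one_mul]
      exact hc' z hz
  refine lt_of_lt_of_le ?_ h1
  rw [integral_const, smul_eq_mul]
  refine mul_pos ?_ hc
  rw [muT_eq, measureReal_restrict_apply_univ, cell, Measure.real, Measure.volume_eq_prod,
    Measure.prod_prod, Real.volume_Ioc, Real.volume_Ioo, ← ENNReal.ofReal_mul (by linarith [D.hℓ]),
    ENNReal.toReal_ofReal (by nlinarith [D.hℓ])]
  nlinarith [D.hℓ]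

theorem vol (hK : KK ℓ δ ρ * Inu ℓ h δ (fun _ => 1) = 1) : volume (Om ℓ h δ ρ) = 1 := by
  have h1 := D.int (fun _ => (1:ℝ))
  rw [integral_const, smul_eq_mul, mul_one, measureReal_restrict_apply_univ] at h1
  have h2 : (volume (Om ℓ h δ ρ)).toReal = 1 := by
    rw [Measure.real] at h1
    rw [h1]
    exact hK
  have h3 : volume (Om ℓ h δ ρ) ≠ ⊤ := D.dom.2.1.measure_lt_top.ne
  rw [← ENNReal.ofReal_toReal h3, h2, ENNReal.ofReal_one]

end Dat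

/-- the radius with unit volume -/
theorem exists_rho {ℓ δ N : ℝ} (hℓ : 0 < ℓ) (hδ : 0 < δ) (hN : 0 < N) :
    ∃ ρ > 0, KK ℓ δ ρ * N = 1 := by
  have hpi := Real.pi_pos
  refine ⟨ℓ / (2 * Real.pi) * Real.sqrt (1 / (2 * δ * N)), by positivity, ?_⟩
  unfold KK
  have e : 2 * Real.pi * (ℓ / (2 * Real.pi) * Real.sqrt (1 / (2 * δ * N))) / ℓ =
      Real.sqrt (1 / (2 * δ * N)) := by
    field_simp
  rw [e, Real.sq_sqrt (by positivity)]
  field_simp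

theorem kappa {p lam : ℝ} (hp1 : p < 1) (hlam : 0 < lam) :
    ∃ κ > 0, κ ^ p = κ * lam := by
  refine ⟨lam ^ (1 / (p - 1)), Real.rpow_pos_of_pos hlam _, ?_⟩
  have hp : p - 1 ≠ 0 := by linarith
  have e : lam ^ (1 / (p - 1)) * lam = lam ^ (1 / (p - 1) + 1) := by
    rw [Real.rpow_add hlam, Real.rpow_one]
  rw [e, ← Real.rpow_mul hlam.le]
  congr 1
  field_simp
  ring

/-- the strong form of A4 -/
theorem a4 : AStrong := by
  intro p hp ℓ hℓ h hh per pos δ hδ l0 l1 l2 hl0 hl01 hl12 F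
  obtain ⟨hp0, hp1⟩ := hp
  -- a preliminary radius, only to get the positivity of the norm
  have mkD : ∀ ρ > 0, Dat ℓ h δ ρ := fun ρ hρ =>
    { hℓ := hℓ, hh := hh, per := per, pos := pos, hδ := hδ, hρ := hρ
      int := (H34.a3 ℓ hℓ h hh per pos δ hδ ρ hρ).1
      mem := (H34.a3 ℓ hℓ h hh per pos δ hδ ρ hρ).2.1
      inn := (H34.a3 ℓ hℓ h hh per pos δ hδ ρ hρ).2.2
      ext := fun Φ hΦ => H70.a2 ℓ hℓ h hh per pos δ hδ ρ hρ Φ hΦ
      dom := H70.a1 ℓ hℓ h hh per pos δ hδ ρ hρ }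
  set N := Inu ℓ h δ (fun _ => 1) with hN
  have hN0 : 0 < N := (mkD 1 one_pos).norm_pos
  obtain ⟨ρ, hρ, hK⟩ := exists_rho hℓ hδ hN0
  have D := mkD ρ hρ
  set K := KK ℓ δ ρ with hKdef
  have hK0 : 0 < K := D.KK_pos
  have hvol : volume (Om ℓ h δ ρ) = 1 := D.vol hK
  have hprob : IsProbabilityMeasure ((volume : Measure PL).restrict (Om ℓ h δ ρ)) :=
    ⟨by rw [Measure.restrict_apply_univ, hvol]⟩
  set L := 2 * δ * N with hL
  have hL0 : 0 < L := by positivity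
  have hLK : ∀ l, L * l * K = 2 * δ * l := by
    intro l
    rw [hL]
    linear_combination (2 * δ * l) * hK
  -- the nonconstant solution at `l0`
  obtain ⟨U, V, W, hW, ⟨c, hc, hcU⟩, hUc⟩ := F.ex
  have hUpos : ∀ᵐ z ∂muT ℓ, 0 < U z := by
    filter_upwards [hcU] with z hz
    linarith
  have hLl0 : 0 < L * l0 := by positivity
  obtain ⟨κ, hκ, hκp⟩ := kappa (p := p) hp1 hLl0
  obtain ⟨hIn, hPos⟩ := D.sol_bwd hp0 hp1 hκ hLl0 (hLK l0) hκp hW hUpos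
  set u0 : PL → ℝ := fun x => κ * U (inv ℓ h δ ρ x) with hu0
  set G0 := VF ℓ h δ ρ (fun z => κ * V z) (fun z => κ * W z) with hG0
  have hnc : ¬ AEConst (Om ℓ h δ ρ) u0 := by
    rintro ⟨k, hk⟩
    refine hUc ⟨κ⁻¹ * k, ?_⟩
    have h1 := (D.ae_iff hIn.mu (S := {k}) (measurableSet_singleton k)).1 hk
    filter_upwards [h1, ae_cell ℓ] with z hz hz'
    have h2 : κ * U (inv ℓ h δ ρ (Fmap ℓ h δ ρ z)) = k := hz
    rw [D.inv_F hz'] at h2
    rw [← h2, inv_mul_cancel_left₀ hκ.ne']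
  have hlow : ∀ᵐ x ∂(volume.restrict (Om ℓ h δ ρ)), κ * c ≤ u0 x := by
    refine (D.ae_iff hIn.mu (S := Ici (κ * c)) measurableSet_Ici).2 ?_
    filter_upwards [hcU, ae_cell ℓ] with z hz hz'
    change κ * c ≤ κ * U (inv ℓ h δ ρ (Fmap ℓ h δ ρ z))
    rw [D.inv_F hz']
    exact mul_le_mul_of_nonneg_left hz hκ.le
  have hmem : L * l0 ∈ Sol1 (Om ℓ h δ ρ) p := ⟨hLl0, u0, hPos, hnc⟩
  have hbdd : BddBelow (Sol1 (Om ℓ h δ ρ) p) := ⟨0, fun l hl => hl.1.le⟩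
  -- the inequality
  have hp' : |p - 1| = 1 - p := by rw [abs_of_neg (by linarith)]; ring
  have hmemL : (1 - p) * (L * l2) ∈ LamSet (Om ℓ h δ ρ) p := by
    intro u G hG
    have h1 := F.ineq _ _ _ (D.fwd hG)
    have hq : 0 < p + 1 := by linarith
    have e1 : ∫ x in Om ℓ h δ ρ, u x ^ 2 = K * Inu ℓ h δ (fun z => u (Fmap ℓ h δ ρ z) ^ 2) :=
      D.int (fun x => u x ^ 2)
    have e2 : ∫ x in Om ℓ h δ ρ, |u x| ^ (p + 1) =
        K * Inu ℓ h δ (fun z => |u (Fmap ℓ h δ ρ z)| ^ (p + 1)) := D.int (fun x => |u x| ^ (p + 1))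
    have e3 : ∫ x in Om ℓ h δ ρ, ‖G x‖ ^ 2 =
        2 * δ * Bil ℓ h δ (pbS ℓ h δ ρ G) (pbY ℓ h δ ρ G) (pbS ℓ h δ ρ G) (pbY ℓ h δ ρ G) := by
      rw [← D.inn]
      refine integral_congr_ae (Eventually.of_forall fun x => ?_)
      simp only [real_inner_self_eq_norm_sq]
    have hB0 : 0 ≤ Inu ℓ h δ (fun z => |u (Fmap ℓ h δ ρ z)| ^ (p + 1)) := by
      unfold Inu
      refine integral_nonneg fun z => ?_
      have := D.wt_pos z
      exact mul_nonneg (Real.rpow_nonneg (abs_nonneg _) _) this.le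
    set A := Inu ℓ h δ (fun z => u (Fmap ℓ h δ ρ z) ^ 2)
    set B := Inu ℓ h δ (fun z => |u (Fmap ℓ h δ ρ z)| ^ (p + 1))
    set X := Bil ℓ h δ (pbS ℓ h δ ρ G) (pbY ℓ h δ ρ G) (pbS ℓ h δ ρ G) (pbY ℓ h δ ρ G)
    rw [e1, e2, e3]
    have hKN : K = N⁻¹ := eq_inv_of_mul_eq_one_left hK
    have e4 : (K * B) ^ (2 / (p + 1)) = K * (N ^ ((p - 1) / (p + 1)) * B ^ (2 / (p + 1))) := by
      rw [Real.mul_rpow hK0.le hB0, ← mul_assoc]
      congr 1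
      rw [hKN, Real.inv_rpow hN0.le, ← Real.rpow_neg hN0.le]
      have : N⁻¹ = N ^ (-1 : ℝ) := by rw [Real.rpow_neg hN0.le, Real.rpow_one]
      rw [this, ← Real.rpow_add hN0]
      congr 1
      field_simp
      ring
    rw [e4]
    have e5 : (1 - p) * (L * l2) / (p - 1) = -(L * l2) := by
      have : p - 1 ≠ 0 := by linarith
      field_simp
      ring
    rw [e5]
    have e6 : L * K = 2 * δ := by
      have := hLK 1
      linarith
    have h2 : 2 * δ * (l2 * (A - N ^ ((p - 1) / (p + 1)) * B ^ (2 / (p + 1)))) ≤ 2 * δ * X :=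
      mul_le_mul_of_nonneg_left h1 (by positivity)
    rw [← e6] at h2 ⊢
    linarith
  -- the set is bounded above
  have hJ := jensen hp0 hp1 hIn.mu hPos.1 hnc
  have hbddL : BddAbove (LamSet (Om ℓ h δ ρ) p) := by
    refine ⟨(1 - p) * (∫ x in Om ℓ h δ ρ, ‖G0 x‖ ^ 2) /
      ((∫ x in Om ℓ h δ ρ, u0 x ^ 2) - (∫ x in Om ℓ h δ ρ, |u0 x| ^ (p + 1)) ^ (2 / (p + 1))), ?_⟩
    intro Λ hΛ
    have h1 := hΛ u0 G0 hIn
    rw [le_div_iff₀ (by linarith)]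
    have h2 : 0 < 1 - p := by linarith
    have h3 : Λ / (p - 1) * ((∫ x in Om ℓ h δ ρ, |u0 x| ^ (p + 1)) ^ (2 / (p + 1)) -
        ∫ x in Om ℓ h δ ρ, u0 x ^ 2) = (Λ * ((∫ x in Om ℓ h δ ρ, u0 x ^ 2) -
        (∫ x in Om ℓ h δ ρ, |u0 x| ^ (p + 1)) ^ (2 / (p + 1)))) / (1 - p) := by
      have h4 : p - 1 = -(1 - p) := by ring
      rw [h4]
      field_simp
      ring
    rw [h3, div_le_iff₀ h2] at h1
    linarith
  have hLUB : IsLUB (LamSet (Om ℓ h δ ρ) p) (sSup (LamSet (Om ℓ h δ ρ) p)) :=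
    isLUB_csSup ⟨_, hmemL⟩ hbddL
  refine ⟨Om ℓ h δ ρ, ⟨D.dom.1, D.dom.2.1, D.dom.2.2.1, D.dom.2.2.2, hvol⟩,
    sInf (Sol1 (Om ℓ h δ ρ) p), sSup (LamSet (Om ℓ h δ ρ) p) / (1 - p), L * l1,
    isGLB_csInf ⟨_, hmem⟩ hbdd, ?_, ?_, ?_, ?_, ?_⟩
  · rw [hp', mul_div_cancel₀ _ (by linarith)]
    exact hLUB
  · exact (csInf_le hbdd hmem).trans_lt (mul_lt_mul_of_pos_left hl01 hL0)
  · rw [lt_div_iff₀ (by linarith)]
    refine lt_of_lt_of_le ?_ (hLUB.1 hmemL)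
    have h1 : L * l1 < L * l2 := mul_lt_mul_of_pos_left hl12 hL0
    nlinarith
  · exact ⟨L * l0, u0, hLl0, mul_lt_mul_of_pos_left hl01 hL0, hPos, hnc, κ * c, by positivity,
      hlow⟩
  · intro u hu
    have hLl1 : 0 < L * l1 := by
      have : 0 < l1 := hl0.trans hl01
      positivity
    obtain ⟨κ1, hκ1, hκ1p⟩ := kappa (p := p) hp1 hLl1
    obtain ⟨hpos1, V1, W1, hW1⟩ := D.sol_fwd hp0 hp1 hκ1 hLl1 (hLK l1) hκ1p hu
    obtain ⟨k, hk⟩ := F.uniq _ _ _ hW1 hpos1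
    obtain ⟨-, G, hG, -⟩ := hu
    refine ⟨κ1 * k, ?_⟩
    refine (D.ae_iff hG.mu (S := {κ1 * k}) (measurableSet_singleton _)).2 ?_
    filter_upwards [hk] with z hz
    rw [mem_singleton_iff, ← hz, mul_inv_cancel_left₀ hκ1.ne']

theorem strong_main {p : ℝ} (H : MainStrong p) : MainStatement p := by
  obtain ⟨Ω, hΩ, μ₁, μ₂, lam, h1, h2, h3, h4, -, h5⟩ := H
  exact ⟨Ω, hΩ, μ₁, μ₂, lam, h1, h2, h3, h4, h5⟩

/-- module A4 -/
theorem a4' : AStatement := fun p hp ℓ hℓ h hh per pos δ hδ l0 l1 l2 h0 h1 h2 F =>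
  strong_main (a4 p hp ℓ hℓ h hh per pos δ hδ l0 l1 l2 h0 h1 h2 F)

end Pool.Agent.Lib.MP_e46711_an.H24
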