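import Pool.Agent.Lib.MP_e46711_an.H24.Geo
import Pool.Agent.Lib.MP_e46711_an.H7.Basic

/-!
# Module A4, part 2: the `H^1` correspondence
-/

open Set Filter Topology MeasureTheory
open scoped ContDiff ENNReal

namespace Pool.Agent.Lib.MP_e46711_an.H24

/-- the data and the results of A1 - A3 -/
structure Dat (ℓ : ℝ) (h : ℝ → ℝ) (δ ρ : ℝ) : Prop where
  hℓ : 0 < ℓ
  hh : ContDiff ℝ ∞ h
  per : ∀ s, h (s + ℓ) = h s
  pos : ∀ s, 0 < h s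
  hδ : 0 < δ
  hρ : 0 < ρ
  int : ∀ f : PL → ℝ, ∫ x in Om ℓ h δ ρ, f x
      = 2 * δ * (2 * Real.pi * ρ / ℓ) ^ 2 * Inu ℓ h δ (fun z => f (Fmap ℓ h δ ρ z))
  mem : ∀ f : PL → ℝ, MemLp f 2 (volume.restrict (Om ℓ h δ ρ)) ↔
      MemLp (fun z => f (Fmap ℓ h δ ρ z)) 2 (muT ℓ)
  inn : ∀ G G' : PL → PL, ∫ x in Om ℓ h δ ρ, inner ℝ (G x) (G' x) = 2 * δ *
      Bil ℓ h δ (pbS ℓ h δ ρ G) (pbY ℓ h δ ρ G) (pbS ℓ h δ ρ G') (pbY ℓ h δ ρ G')
  ext : ∀ Φ, C1per ℓ Φ → ∃ φ : PL → ℝ, ContDiff ℝ 1 φ ∧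
    ∀ s, ∀ y ∈ Ioo (-1:ℝ) 1, φ (Fmap ℓ h δ ρ (s, y)) = Φ (s, y)
  dom : IsOpen (Om ℓ h δ ρ) ∧ Bornology.IsBounded (Om ℓ h δ ρ) ∧ IsConnected (Om ℓ h δ ρ) ∧
    SmoothBoundary (Om ℓ h δ ρ)

/-- the weight -/
noncomputable def wt (ℓ : ℝ) (h : ℝ → ℝ) (δ : ℝ) (z : ℝ × ℝ) : ℝ := h z.1 * om ℓ h δ z / 2

/-- the Jacobian factor -/
noncomputable def KK (ℓ δ ρ : ℝ) : ℝ := 2 * δ * (2 * Real.pi * ρ / ℓ) ^ 2

theorem integrable_mulc {f k : ℝ × ℝ → ℝ} {ℓ : ℝ} (hf : Integrable f (muT ℓ))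
    (hk : Continuous k) : Integrable (fun z => f z * k z) (muT ℓ) := by
  obtain ⟨C, -, hC⟩ := exists_bd hk ℓ
  refine hf.mul_bdd (c := C) hk.aestronglyMeasurable ?_
  filter_upwards [ae_cell ℓ] with z hz
  exact hC z hz

namespace Dat

variable {ℓ : ℝ} {h : ℝ → ℝ} {δ ρ : ℝ} (D : Dat ℓ h δ ρ)
include D

theorem KK_pos : 0 < KK ℓ δ ρ := by
  have := Real.pi_pos
  have := D.hℓ
  have := D.hδ
  have := D.hρ
  unfold KK
  positivity

theorem wt_pos (z : ℝ × ℝ) : 0 < wt ℓ h δ z := by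
  unfold wt om
  have := D.pos z.1
  positivity

theorem wt_cont : Continuous (wt ℓ h δ) := by
  have := D.hh.continuous
  unfold wt om
  fun_prop

theorem int' (f : PL → ℝ) : ∫ x in Om ℓ h δ ρ, f x =
    KK ℓ δ ρ * ∫ z, f (Fmap ℓ h δ ρ z) * wt ℓ h δ z ∂muT ℓ := D.int f

theorem finMeas : IsFiniteMeasure ((volume : Measure PL).restrict (Om ℓ h δ ρ)) :=
  ⟨by
    rw [Measure.restrict_apply_univ]
    exact D.dom.2.1.measure_lt_top⟩

theorem cont_F : Continuous (Fmap ℓ h δ ρ) := (contDiff_Fmap D.hh ℓ δ ρ).continuous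

theorem diff_F (z : ℝ × ℝ) : DifferentiableAt ℝ (Fmap ℓ h δ ρ) z :=
  ((contDiff_Fmap D.hh ℓ δ ρ).differentiable (by simp)).differentiableAt

theorem cont_Fd (v : ℝ × ℝ) (i : Fin 2) : Continuous (fun z => (fderiv ℝ (Fmap ℓ h δ ρ) z v) i) := by
  have h1 : Continuous (fun z => fderiv ℝ (Fmap ℓ h δ ρ) z v) :=
    ((contDiff_Fmap D.hh ℓ δ ρ).continuous_fderiv (by simp)).clm_apply continuous_const
  exact (EuclideanSpace.proj i : PL →L[ℝ] ℝ).continuous.comp h1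

/-! ### pull back of functions -/

theorem C1per_comp {φ : PL → ℝ} (hφ : ContDiff ℝ 1 φ) :
    C1per ℓ (fun z => φ (Fmap ℓ h δ ρ z)) := by
  refine ⟨hφ.comp ((contDiff_Fmap D.hh ℓ δ ρ).of_le (by simp)), fun s y => ?_⟩
  simp only [Fmap_per D.hℓ D.per]

omit D in
theorem inner_grad (φ : PL → ℝ) (x v : PL) : inner ℝ (gradient φ x) v = fderiv ℝ φ x v := by
  rw [gradient, InnerProductSpace.toDual_symm_apply]

theorem fderiv_F {φ : PL → ℝ} (hφ : ContDiff ℝ 1 φ) (z v : ℝ × ℝ) :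
    fderiv ℝ (fun z => φ (Fmap ℓ h δ ρ z)) z v =
      inner ℝ (gradient φ (Fmap ℓ h δ ρ z)) (fderiv ℝ (Fmap ℓ h δ ρ) z v) := by
  rw [inner_grad]
  have h1 : DifferentiableAt ℝ φ (Fmap ℓ h δ ρ z) :=
    (hφ.differentiable (by simp)).differentiableAt
  have h2 := _root_.fderiv_comp (𝕜 := ℝ) z h1 (D.diff_F z)
  have h3 : (fun z => φ (Fmap ℓ h δ ρ z)) = φ ∘ Fmap ℓ h δ ρ := rfl
  rw [h3, h2]
  rfl

theorem dS_comp {φ : PL → ℝ} (hφ : ContDiff ℝ 1 φ) (z : ℝ × ℝ) :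
    dS (fun z => φ (Fmap ℓ h δ ρ z)) z = cS ℓ h δ ρ z (gradient φ (Fmap ℓ h δ ρ z)) :=
  D.fderiv_F hφ z (1, 0)

theorem dY_comp {φ : PL → ℝ} (hφ : ContDiff ℝ 1 φ) (z : ℝ × ℝ) :
    dY (fun z => φ (Fmap ℓ h δ ρ z)) z = cY ℓ h δ ρ z (gradient φ (Fmap ℓ h δ ρ z)) :=
  D.fderiv_F hφ z (0, 1)

/-- the derivatives of a `C1per` function and its extension -/
theorem ext_deriv {Φ : ℝ × ℝ → ℝ} {φ : PL → ℝ} (hφ : ContDiff ℝ 1 φ)
    (he : ∀ s, ∀ y ∈ Ioo (-1:ℝ) 1, φ (Fmap ℓ h δ ρ (s, y)) = Φ (s, y)) {z : ℝ × ℝ}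
    (hz : z ∈ cell ℓ) : cS ℓ h δ ρ z (gradient φ (Fmap ℓ h δ ρ z)) = dS Φ z ∧
      cY ℓ h δ ρ z (gradient φ (Fmap ℓ h δ ρ z)) = dY Φ z := by
  have h1 : (fun z => φ (Fmap ℓ h δ ρ z)) =ᶠ[𝓝 z] Φ := by
    have h2 : {z : ℝ × ℝ | z.2 ∈ Ioo (-1:ℝ) 1} ∈ 𝓝 z :=
      (isOpen_Ioo.preimage continuous_snd).mem_nhds hz.2
    filter_upwards [h2] with w hw
    exact he w.1 w.2 hw
  rw [← D.dS_comp hφ, ← D.dY_comp hφ]
  unfold dS dY
  rw [h1.fderiv_eq]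
  exact ⟨rfl, rfl⟩

theorem memLp_comp {G : PL → PL} (hG : MemLp G 2 (volume.restrict (Om ℓ h δ ρ))) (i : Fin 2) :
    MemLp (fun z => G (Fmap ℓ h δ ρ z) i) 2 (muT ℓ) := by
  refine (D.mem fun x => G x i).1 ?_
  exact (EuclideanSpace.proj i : PL →L[ℝ] ℝ).comp_memLp' hG

theorem memLp_inner {G : ℝ × ℝ → PL} (hG : ∀ i, MemLp (fun z => G z i) 2 (muT ℓ)) (v : ℝ × ℝ) :
    MemLp (fun z => inner ℝ (G z) (fderiv ℝ (Fmap ℓ h δ ρ) z v)) 2 (muT ℓ) := by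
  have h1 := (memLp_cmul (D.cont_Fd v 0) (hG 0)).add (memLp_cmul (D.cont_Fd v 1) (hG 1))
  refine h1.ae_eq (Eventually.of_forall fun z => ?_)
  simp only [Pi.add_apply]
  rw [inner2]
  ring

theorem memLp_pbS {G : PL → PL} (hG : MemLp G 2 (volume.restrict (Om ℓ h δ ρ))) :
    MemLp (pbS ℓ h δ ρ G) 2 (muT ℓ) := D.memLp_inner (D.memLp_comp hG) (1, 0)

theorem memLp_pbY {G : PL → PL} (hG : MemLp G 2 (volume.restrict (Om ℓ h δ ρ))) :
    MemLp (pbY ℓ h δ ρ G) 2 (muT ℓ) := D.memLp_inner (D.memLp_comp hG) (0, 1)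

theorem cont_grad {φ : PL → ℝ} (hφ : ContDiff ℝ 1 φ) (i : Fin 2) :
    Continuous (fun z => gradient φ (Fmap ℓ h δ ρ z) i) := by
  have h1 : Continuous (gradient φ) :=
    (InnerProductSpace.toDual ℝ PL).symm.continuous.comp (hφ.continuous_fderiv (by simp))
  exact ((EuclideanSpace.proj i : PL →L[ℝ] ℝ).continuous.comp h1).comp D.cont_F

theorem integrable_E {f : ℝ × ℝ → ℝ} {G : ℝ × ℝ → PL} (hf : MemLp f 2 (muT ℓ))
    (hG : ∀ i, MemLp (fun z => G z i) 2 (muT ℓ)) :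
    Integrable (fun z => (f z ^ 2 + ‖G z‖ ^ 2) * wt ℓ h δ z) (muT ℓ) := by
  refine integrable_mulc ?_ D.wt_cont
  have h1 := hf.integrable_sq.add ((hG 0).integrable_sq.add (hG 1).integrable_sq)
  refine h1.congr (Eventually.of_forall fun z => ?_)
  simp only [Pi.add_apply]
  rw [norm2]

/-- from the domain to the strip -/
theorem fwd {u : PL → ℝ} {G : PL → PL} (H : InH1 (Om ℓ h δ ρ) u G) :
    H1T ℓ (fun z => u (Fmap ℓ h δ ρ z)) (pbS ℓ h δ ρ G) (pbY ℓ h δ ρ G) := by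
  obtain ⟨φ, hφ, hlim⟩ := H.approx
  refine ⟨(D.mem u).1 H.mu, D.memLp_pbS H.mG, D.memLp_pbY H.mG,
    fun n z => φ n (Fmap ℓ h δ ρ z), fun n => D.C1per_comp (hφ n), ?_⟩
  obtain ⟨C, hC, hC'⟩ := comp_le D.hh D.hℓ D.hρ D.hδ D.pos
  obtain ⟨c, hc, hc'⟩ := exists_lb D.wt_cont D.wt_pos ℓ
  have hK := D.KK_pos
  have key : ∀ n, ∫ z, ((φ n (Fmap ℓ h δ ρ z) - u (Fmap ℓ h δ ρ z)) ^ 2
      + (dS (fun z => φ n (Fmap ℓ h δ ρ z)) z - pbS ℓ h δ ρ G z) ^ 2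
      + (dY (fun z => φ n (Fmap ℓ h δ ρ z)) z - pbY ℓ h δ ρ G z) ^ 2) ∂muT ℓ ≤
      (1 + C) / c / KK ℓ δ ρ *
        ∫ x in Om ℓ h δ ρ, ((φ n x - u x) ^ 2 + ‖gradient (φ n) x - G x‖ ^ 2) := by
    intro n
    rw [D.int']
    have e : (1 + C) / c / KK ℓ δ ρ * (KK ℓ δ ρ * ∫ z, ((φ n (Fmap ℓ h δ ρ z) - u (Fmap ℓ h δ ρ z)) ^ 2 +
        ‖gradient (φ n) (Fmap ℓ h δ ρ z) - G (Fmap ℓ h δ ρ z)‖ ^ 2) * wt ℓ h δ z ∂muT ℓ) =
        ∫ z, (1 + C) / c * (((φ n (Fmap ℓ h δ ρ z) - u (Fmap ℓ h δ ρ z)) ^ 2 +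
        ‖gradient (φ n) (Fmap ℓ h δ ρ z) - G (Fmap ℓ h δ ρ z)‖ ^ 2) * wt ℓ h δ z) ∂muT ℓ := by
      rw [integral_const_mul]
      field_simp
    rw [e]
    refine integral_mono_of_nonneg (Eventually.of_forall fun z => by
      simp only [Pi.zero_apply]; positivity) ?_ ?_
    · refine Integrable.const_mul ?_ _
      refine D.integrable_E ?_ ?_
      · exact (memLp_cont ((hφ n).continuous.comp D.cont_F) ℓ).sub ((D.mem u).1 H.mu)
      · intro i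
        exact (memLp_cont (D.cont_grad (hφ n) i) ℓ).sub (D.memLp_comp H.mG i)
    · filter_upwards [ae_cell ℓ] with z hz
      rw [D.dS_comp (hφ n), D.dY_comp (hφ n)]
      have h1 := (hC' z hz (gradient (φ n) (Fmap ℓ h δ ρ z) - G (Fmap ℓ h δ ρ z))).1
      have e1 : cS ℓ h δ ρ z (gradient (φ n) (Fmap ℓ h δ ρ z) - G (Fmap ℓ h δ ρ z)) =
          cS ℓ h δ ρ z (gradient (φ n) (Fmap ℓ h δ ρ z)) - pbS ℓ h δ ρ G z := by
        unfold cS pbS; rw [inner_sub_left]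
      have e2 : cY ℓ h δ ρ z (gradient (φ n) (Fmap ℓ h δ ρ z) - G (Fmap ℓ h δ ρ z)) =
          cY ℓ h δ ρ z (gradient (φ n) (Fmap ℓ h δ ρ z)) - pbY ℓ h δ ρ G z := by
        unfold cY pbY; rw [inner_sub_left]
      rw [e1, e2] at h1
      have h2 := hc' z hz
      set A := (φ n (Fmap ℓ h δ ρ z) - u (Fmap ℓ h δ ρ z)) ^ 2 with hA
      set B := ‖gradient (φ n) (Fmap ℓ h δ ρ z) - G (Fmap ℓ h δ ρ z)‖ ^ 2 with hB
      have hA0 : 0 ≤ A := sq_nonneg _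
      have hB0 : 0 ≤ B := sq_nonneg _
      have h3 : (1 + C) * (A + B) ≤ (1 + C) / c * ((A + B) * wt ℓ h δ z) := by
        have : (1 + C) / c * ((A + B) * wt ℓ h δ z) = (1 + C) * (A + B) * (wt ℓ h δ z / c) := by
          field_simp
        rw [this]
        have h4 : 1 ≤ wt ℓ h δ z / c := by rw [le_div_iff₀ hc]; linarith
        have h5 : 0 ≤ (1 + C) * (A + B) := by positivity
        nlinarith
      have h4 : A + C * B ≤ (1 + C) * (A + B) := by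
        have : 0 ≤ C * A := by positivity
        nlinarith
      linarith
  refine squeeze_zero (fun n => integral_nonneg fun z => by
    simp only [Pi.zero_apply]; positivity) key ?_
  simpa using hlim.const_mul ((1 + C) / c / KK ℓ δ ρ)

/-! ### from the strip to the domain -/

theorem inj {z w : ℝ × ℝ} (hz : z ∈ cell ℓ) (hw : w ∈ cell ℓ)
    (he : Fmap ℓ h δ ρ z = Fmap ℓ h δ ρ w) : z = w := by
  obtain ⟨s, y⟩ := z
  obtain ⟨s', y'⟩ := w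
  obtain ⟨k, hk⟩ := H70.sc_Fmap D.hℓ h δ D.hρ s y
  obtain ⟨k', hk'⟩ := H70.sc_Fmap D.hℓ h δ D.hρ s' y'
  have h1 : s + k * ℓ = s' + k' * ℓ := by rw [← hk, ← hk', he]
  have hs : s ∈ Ioc 0 ℓ := hz.1
  have hs' : s' ∈ Ioc 0 ℓ := hw.1
  have h2 : s - s' = ((k' - k : ℤ) : ℝ) * ℓ := by push_cast; linarith
  have h3 : k' - k = 0 := by
    by_contra hne
    rcases lt_or_gt_of_ne hne with h4 | h4
    · have h5 : ((k' - k : ℤ) : ℝ) ≤ -1 := by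
        have : k' - k ≤ -1 := by omega
        exact_mod_cast this
      have := D.hℓ
      nlinarith [hs.1, hs'.2]
    · have h5 : (1 : ℝ) ≤ ((k' - k : ℤ) : ℝ) := by
        have : 1 ≤ k' - k := by omega
        exact_mod_cast this
      have := D.hℓ
      nlinarith [hs.2, hs'.1]
  rw [h3] at h2
  have h4 : s = s' := by simpa [sub_eq_zero] using h2
  subst h4
  have h5 := congrArg norm he
  rw [H70.norm_Fmap ℓ h δ D.hρ, H70.norm_Fmap ℓ h δ D.hρ] at h5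
  have h6 := mul_left_cancel₀ D.hρ.ne' h5
  have h7 := Real.exp_injective h6
  have h8 : (2 * Real.pi * δ * h s) * y = (2 * Real.pi * δ * h s) * y' := by
    have := D.hℓ.ne'
    field_simp at h7
    linear_combination 2 * Real.pi * h7
  have h9 : y = y' := by
    refine mul_left_cancel₀ ?_ h8
    have := Real.pi_pos
    have := D.hδ
    have := D.pos s
    positivity
  rw [h9]

end Dat

open Classical in
/-- the inverse of the map on the cell -/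
noncomputable def inv (ℓ : ℝ) (h : ℝ → ℝ) (δ ρ : ℝ) (x : PL) : ℝ × ℝ :=
  if hx : ∃ z ∈ cell ℓ, Fmap ℓ h δ ρ z = x then hx.choose else 0

/-- the vector field on the domain -/
noncomputable def VF (ℓ : ℝ) (h : ℝ → ℝ) (δ ρ : ℝ) (V W : ℝ × ℝ → ℝ) (x : PL) : PL :=
  vmk ℓ h δ ρ (inv ℓ h δ ρ x) (V (inv ℓ h δ ρ x)) (W (inv ℓ h δ ρ x))

namespace Dat

variable {ℓ : ℝ} {h : ℝ → ℝ} {δ ρ : ℝ} (D : Dat ℓ h δ ρ)
include D

theorem inv_F {z : ℝ × ℝ} (hz : z ∈ cell ℓ) : inv ℓ h δ ρ (Fmap ℓ h δ ρ z) = z := by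
  have hx : ∃ w ∈ cell ℓ, Fmap ℓ h δ ρ w = Fmap ℓ h δ ρ z := ⟨z, hz, rfl⟩
  unfold inv
  rw [dif_pos hx]
  exact D.inj hx.choose_spec.1 hz hx.choose_spec.2

/-- the function on the domain -/
theorem memLp_inv {U : ℝ × ℝ → ℝ} (hU : MemLp U 2 (muT ℓ)) :
    MemLp (fun x => U (inv ℓ h δ ρ x)) 2 (volume.restrict (Om ℓ h δ ρ)) := by
  rw [D.mem]
  refine hU.ae_eq ?_
  filter_upwards [ae_cell ℓ] with z hz
  rw [D.inv_F hz]

theorem VF_F (V W : ℝ × ℝ → ℝ) {z : ℝ × ℝ} (hz : z ∈ cell ℓ) :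
    VF ℓ h δ ρ V W (Fmap ℓ h δ ρ z) = vmk ℓ h δ ρ z (V z) (W z) := by
  unfold VF
  rw [D.inv_F hz]

theorem pbS_VF (V W : ℝ × ℝ → ℝ) {z : ℝ × ℝ} (hz : z ∈ cell ℓ) :
    pbS ℓ h δ ρ (VF ℓ h δ ρ V W) z = V z := by
  have h1 : pbS ℓ h δ ρ (VF ℓ h δ ρ V W) z = cS ℓ h δ ρ z (VF ℓ h δ ρ V W (Fmap ℓ h δ ρ z)) := rfl
  rw [h1, D.VF_F V W hz, cS_mk D.hh D.hℓ D.hρ D.hδ D.pos]

theorem pbY_VF (V W : ℝ × ℝ → ℝ) {z : ℝ × ℝ} (hz : z ∈ cell ℓ) :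
    pbY ℓ h δ ρ (VF ℓ h δ ρ V W) z = W z := by
  have h1 : pbY ℓ h δ ρ (VF ℓ h δ ρ V W) z = cY ℓ h δ ρ z (VF ℓ h δ ρ V W (Fmap ℓ h δ ρ z)) := rfl
  rw [h1, D.VF_F V W hz, cY_mk D.hh D.hℓ D.hρ D.hδ D.pos]

theorem memLp_mk {V W : ℝ × ℝ → ℝ} (hV : MemLp V 2 (muT ℓ)) (hW : MemLp W 2 (muT ℓ)) (i : Fin 2) :
    MemLp (fun z => vmk ℓ h δ ρ z (V z) (W z) i) 2 (muT ℓ) := by
  have hc := D.hh.continuous
  have hc' : Continuous (deriv h) := D.hh.continuous_deriv (by simp)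
  have ha := continuous_amp (ℓ := ℓ) (δ := δ) (ρ := ρ) D.hh
  have ha0 : ∀ z, amp ℓ h δ ρ z ≠ 0 := fun z => (amp_pos D.hℓ D.hρ z).ne'
  have hh0 : ∀ z : ℝ × ℝ, h z.1 ≠ 0 := fun z => (D.pos _).ne'
  have hδ0 : ∀ z : ℝ × ℝ, δ * h z.1 ≠ 0 := fun z => (mul_pos D.hδ (D.pos _)).ne'
  fin_cases i
  · have h1 := (memLp_cmul (ℓ := ℓ) (k := fun z => -Real.sin (2 * Real.pi * z.1 / ℓ) / amp ℓ h δ ρ z)
      (Continuous.div (by fun_prop) ha ha0) hV).add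
      (memLp_cmul (ℓ := ℓ) (k := fun z => (deriv h z.1 / h z.1 * z.2 * Real.sin (2 * Real.pi * z.1 / ℓ)
        + Real.cos (2 * Real.pi * z.1 / ℓ) / (δ * h z.1)) / amp ℓ h δ ρ z)
      (Continuous.div ((((Continuous.div (by fun_prop) (by fun_prop) hh0).mul continuous_snd).mul
        (by fun_prop)).add (Continuous.div (by fun_prop) (by fun_prop) hδ0)) ha ha0) hW)
    refine h1.ae_eq (Eventually.of_forall fun z => ?_)
    have a1 := ha0 z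
    have a2 := hh0 z
    have a3 := D.hδ.ne'
    change -Real.sin (2 * Real.pi * z.1 / ℓ) / amp ℓ h δ ρ z * V z +
      (deriv h z.1 / h z.1 * z.2 * Real.sin (2 * Real.pi * z.1 / ℓ)
        + Real.cos (2 * Real.pi * z.1 / ℓ) / (δ * h z.1)) / amp ℓ h δ ρ z * W z =
      ((-(V z - deriv h z.1 / h z.1 * z.2 * W z)) * Real.sin (2 * Real.pi * z.1 / ℓ) +
      W z / (δ * h z.1) * Real.cos (2 * Real.pi * z.1 / ℓ)) / amp ℓ h δ ρ z
    field_simp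
    ring
  · have h1 := (memLp_cmul (ℓ := ℓ) (k := fun z => Real.cos (2 * Real.pi * z.1 / ℓ) / amp ℓ h δ ρ z)
      (Continuous.div (by fun_prop) ha ha0) hV).add
      (memLp_cmul (ℓ := ℓ) (k := fun z => (-(deriv h z.1 / h z.1 * z.2 * Real.cos (2 * Real.pi * z.1 / ℓ))
        + Real.sin (2 * Real.pi * z.1 / ℓ) / (δ * h z.1)) / amp ℓ h δ ρ z)
      (Continuous.div ((((Continuous.div (by fun_prop) (by fun_prop) hh0).mul continuous_snd).mul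
        (by fun_prop)).neg.add (Continuous.div (by fun_prop) (by fun_prop) hδ0)) ha ha0) hW)
    refine h1.ae_eq (Eventually.of_forall fun z => ?_)
    have a1 := ha0 z
    have a2 := hh0 z
    have a3 := D.hδ.ne'
    change Real.cos (2 * Real.pi * z.1 / ℓ) / amp ℓ h δ ρ z * V z +
      (-(deriv h z.1 / h z.1 * z.2 * Real.cos (2 * Real.pi * z.1 / ℓ))
        + Real.sin (2 * Real.pi * z.1 / ℓ) / (δ * h z.1)) / amp ℓ h δ ρ z * W z =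
      ((V z - deriv h z.1 / h z.1 * z.2 * W z) * Real.cos (2 * Real.pi * z.1 / ℓ) +
      W z / (δ * h z.1) * Real.sin (2 * Real.pi * z.1 / ℓ)) / amp ℓ h δ ρ z
    field_simp
    ring

theorem memLp_VF {V W : ℝ × ℝ → ℝ} (hV : MemLp V 2 (muT ℓ)) (hW : MemLp W 2 (muT ℓ)) :
    MemLp (VF ℓ h δ ρ V W) 2 (volume.restrict (Om ℓ h δ ρ)) := by
  have h1 : ∀ i, MemLp (fun x => VF ℓ h δ ρ V W x i) 2 (volume.restrict (Om ℓ h δ ρ)) := by
    intro i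
    rw [D.mem]
    refine (D.memLp_mk hV hW i).ae_eq ?_
    filter_upwards [ae_cell ℓ] with z hz
    rw [D.VF_F V W hz]
  have h2 : ∀ i, MemLp (fun x => ContinuousLinearMap.toSpanSingleton ℝ
      (EuclideanSpace.single i (1:ℝ) : PL) (VF ℓ h δ ρ V W x i)) 2
      (volume.restrict (Om ℓ h δ ρ)) := fun i =>
    (ContinuousLinearMap.toSpanSingleton ℝ (EuclideanSpace.single i (1:ℝ) : PL)).comp_memLp' (h1 i)
  refine ((h2 0).add (h2 1)).ae_eq (Eventually.of_forall fun x => ?_)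
  simp only [Pi.add_apply, ContinuousLinearMap.toSpanSingleton_apply]
  ext i
  fin_cases i <;> simp

/-- from the strip to the domain -/
theorem bwd {U V W : ℝ × ℝ → ℝ} (H : H1T ℓ U V W) :
    InH1 (Om ℓ h δ ρ) (fun x => U (inv ℓ h δ ρ x)) (VF ℓ h δ ρ V W) := by
  obtain ⟨Φ, hΦ, hlim⟩ := H.approx
  choose φ hφ he using fun n => D.ext (Φ n) (hΦ n)
  refine ⟨D.memLp_inv H.mU, D.memLp_VF H.mV H.mW, φ, hφ, ?_⟩
  obtain ⟨C, hC, hC'⟩ := comp_le D.hh D.hℓ D.hρ D.hδ D.pos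
  obtain ⟨B, hB, hB'⟩ := exists_bd D.wt_cont ℓ
  have hK := D.KK_pos
  have key : ∀ n, ∫ x in Om ℓ h δ ρ, ((φ n x - U (inv ℓ h δ ρ x)) ^ 2 +
      ‖gradient (φ n) x - VF ℓ h δ ρ V W x‖ ^ 2) ≤ KK ℓ δ ρ * ((1 + C) * B) *
      ∫ z, ((Φ n z - U z) ^ 2 + (dS (Φ n) z - V z) ^ 2 + (dY (Φ n) z - W z) ^ 2) ∂muT ℓ := by
    intro n
    have e0 : KK ℓ δ ρ * ((1 + C) * B) *
        ∫ z, ((Φ n z - U z) ^ 2 + (dS (Φ n) z - V z) ^ 2 + (dY (Φ n) z - W z) ^ 2) ∂muT ℓ =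
        KK ℓ δ ρ * ∫ z, (1 + C) * B * ((Φ n z - U z) ^ 2 + (dS (Φ n) z - V z) ^ 2 +
          (dY (Φ n) z - W z) ^ 2) ∂muT ℓ := by
      rw [integral_const_mul, mul_assoc]
    rw [D.int', e0]
    refine mul_le_mul_of_nonneg_left ?_ hK.le
    refine integral_mono_of_nonneg (Eventually.of_forall fun z => by
      simp only [Pi.zero_apply]
      have := D.wt_pos z
      positivity) ?_ ?_
    · refine Integrable.const_mul ?_ _
      have hS : Continuous (dS (Φ n)) :=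
        ((hΦ n).1.continuous_fderiv (by simp)).clm_apply continuous_const
      have hY : Continuous (dY (Φ n)) :=
        ((hΦ n).1.continuous_fderiv (by simp)).clm_apply continuous_const
      exact (((memLp_cont (hΦ n).1.continuous ℓ).sub H.mU).integrable_sq.add
        ((memLp_cont hS ℓ).sub H.mV).integrable_sq).add ((memLp_cont hY ℓ).sub H.mW).integrable_sq
    · filter_upwards [ae_cell ℓ] with z hz
      rw [D.inv_F hz, D.VF_F V W hz]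
      have h0 : φ n (Fmap ℓ h δ ρ z) = Φ n z := he n z.1 z.2 hz.2
      rw [h0]
      obtain ⟨e1, e2⟩ := D.ext_deriv (hφ n) (he n) hz
      have h1 := (hC' z hz (gradient (φ n) (Fmap ℓ h δ ρ z) - vmk ℓ h δ ρ z (V z) (W z))).2
      have e3 : cS ℓ h δ ρ z (gradient (φ n) (Fmap ℓ h δ ρ z) - vmk ℓ h δ ρ z (V z) (W z)) =
          dS (Φ n) z - V z := by
        rw [← e1]
        conv_rhs => rw [← cS_mk D.hh D.hℓ D.hρ D.hδ D.pos z (V z) (W z)]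
        unfold cS; rw [inner_sub_left]
      have e4 : cY ℓ h δ ρ z (gradient (φ n) (Fmap ℓ h δ ρ z) - vmk ℓ h δ ρ z (V z) (W z)) =
          dY (Φ n) z - W z := by
        rw [← e2]
        conv_rhs => rw [← cY_mk D.hh D.hℓ D.hρ D.hδ D.pos z (V z) (W z)]
        unfold cY; rw [inner_sub_left]
      rw [e3, e4] at h1
      have h2 : wt ℓ h δ z ≤ B := (le_abs_self _).trans (hB' z hz)
      have h3 := D.wt_pos z
      set a := (Φ n z - U z) ^ 2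
      set b := ‖gradient (φ n) (Fmap ℓ h δ ρ z) - vmk ℓ h δ ρ z (V z) (W z)‖ ^ 2
      set c := (dS (Φ n) z - V z) ^ 2
      set d := (dY (Φ n) z - W z) ^ 2
      have ha : 0 ≤ a := sq_nonneg _
      have hc : 0 ≤ c := sq_nonneg _
      have hd : 0 ≤ d := sq_nonneg _
      have h4 : a + b ≤ (1 + C) * (a + c + d) := by
        have : 0 ≤ C * a := by positivity
        nlinarith
      have h5 : 0 ≤ (1 + C) * (a + c + d) := by positivity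
      calc (a + b) * wt ℓ h δ z ≤ ((1 + C) * (a + c + d)) * wt ℓ h δ z :=
            mul_le_mul_of_nonneg_right h4 h3.le
        _ ≤ ((1 + C) * (a + c + d)) * B := mul_le_mul_of_nonneg_left h2 h5
        _ = (1 + C) * B * (a + c + d) := by ring
  refine squeeze_zero (fun n => integral_nonneg fun z => by
    simp only [Pi.zero_apply]; positivity) key ?_
  simpa using hlim.const_mul (KK ℓ δ ρ * ((1 + C) * B))

end Dat

end Pool.Agent.Lib.MP_e46711_an.H24
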