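import Pool.Agent.Lib.MP_e46711_an.H70.A1

/-!
# Module A4, part 1: the map `Fmap` and pull backs
-/

open Set Filter Topology MeasureTheory
open scoped ContDiff ENNReal

namespace Pool.Agent.Lib.MP_e46711_an.H24

/-- the plane -/
abbrev PL := EuclideanSpace ℝ (Fin 2)

theorem inner2 (a b : PL) : inner ℝ a b = a 0 * b 0 + a 1 * b 1 := by
  rw [PiLp.inner_apply, Fin.sum_univ_two]
  simp only [RCLike.inner_apply, conj_trivial]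
  ring

theorem norm2 (a : PL) : ‖a‖ ^ 2 = a 0 ^ 2 + a 1 ^ 2 := by
  rw [← real_inner_self_eq_norm_sq, inner2]
  ring

/-! ### the cell -/

/-- the fundamental cell -/
def cell (ℓ : ℝ) : Set (ℝ × ℝ) := Ioc 0 ℓ ×ˢ Ioo (-1) 1

theorem muT_eq (ℓ : ℝ) : muT ℓ = (volume : Measure (ℝ × ℝ)).restrict (cell ℓ) := by
  unfold muT cell
  rw [Measure.prod_restrict]
  rfl

theorem ae_cell (ℓ : ℝ) : ∀ᵐ z ∂muT ℓ, z ∈ cell ℓ := by
  rw [muT_eq]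
  exact ae_restrict_mem (measurableSet_Ioc.prod measurableSet_Ioo)

instance (ℓ : ℝ) : IsFiniteMeasure (muT ℓ) := by
  unfold muT
  infer_instance

theorem cell_sub (ℓ : ℝ) : cell ℓ ⊆ Icc 0 ℓ ×ˢ Icc (-1) 1 :=
  prod_mono Ioc_subset_Icc_self Ioo_subset_Icc_self

theorem exists_bd {k : ℝ × ℝ → ℝ} (hk : Continuous k) (ℓ : ℝ) :
    ∃ C > 0, ∀ z ∈ cell ℓ, |k z| ≤ C := by
  obtain ⟨C, hC⟩ := (isCompact_Icc.prod isCompact_Icc : IsCompact (Icc 0 ℓ ×ˢ Icc (-1:ℝ) 1)).exists_bound_of_continuousOn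
    hk.continuousOn
  refine ⟨|C| + 1, by positivity, fun z hz => ?_⟩
  have h1 := hC z (cell_sub ℓ hz)
  rw [Real.norm_eq_abs] at h1
  have := le_abs_self C
  linarith

theorem exists_lb {k : ℝ × ℝ → ℝ} (hk : Continuous k) (hpos : ∀ z, 0 < k z) (ℓ : ℝ) :
    ∃ c > 0, ∀ z ∈ cell ℓ, c ≤ k z := by
  obtain ⟨C, hC, h1⟩ := exists_bd (k := fun z => (k z)⁻¹)
    (hk.inv₀ fun z => (hpos z).ne') ℓ
  refine ⟨C⁻¹, inv_pos.2 hC, fun z hz => ?_⟩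
  have h2 := h1 z hz
  rw [abs_of_pos (inv_pos.2 (hpos z))] at h2
  exact inv_le_of_inv_le₀ (hpos z) h2

theorem memLp_cont {k : ℝ × ℝ → ℝ} (hk : Continuous k) (ℓ : ℝ) : MemLp k 2 (muT ℓ) := by
  obtain ⟨C, -, hC⟩ := exists_bd hk ℓ
  refine MemLp.of_bound hk.aestronglyMeasurable C ?_
  filter_upwards [ae_cell ℓ] with z hz
  exact hC z hz

theorem memLp_cmul {k f : ℝ × ℝ → ℝ} (hk : Continuous k) {ℓ : ℝ} (hf : MemLp f 2 (muT ℓ)) :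
    MemLp (fun z => k z * f z) 2 (muT ℓ) := by
  obtain ⟨C, -, hC⟩ := exists_bd hk ℓ
  refine MemLp.of_le_mul (c := C) hf (hk.aestronglyMeasurable.mul hf.1) ?_
  filter_upwards [ae_cell ℓ] with z hz
  rw [norm_mul]
  exact mul_le_mul_of_nonneg_right (hC z hz) (norm_nonneg _)

/-! ### the map -/

section map

variable {ℓ : ℝ} {h : ℝ → ℝ} {δ ρ : ℝ}

theorem contDiff_Fmap (hh : ContDiff ℝ ∞ h) (ℓ δ ρ : ℝ) : ContDiff ℝ ∞ (Fmap ℓ h δ ρ) := by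
  rw [contDiff_euclidean]
  intro i
  have h1 : ContDiff ℝ ∞ (fun z : ℝ × ℝ => h z.1) := hh.comp contDiff_fst
  have hE : ContDiff ℝ ∞
      (fun z : ℝ × ℝ => ρ * Real.exp (2 * Real.pi * δ * h z.1 * z.2 / ℓ)) := by
    refine contDiff_const.mul (Real.contDiff_exp.comp ?_)
    exact (((contDiff_const.mul h1).mul contDiff_snd).div_const ℓ)
  fin_cases i
  · exact hE.mul (Real.contDiff_cos.comp ((contDiff_const.mul contDiff_fst).div_const ℓ))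
  · exact hE.mul (Real.contDiff_sin.comp ((contDiff_const.mul contDiff_fst).div_const ℓ))

theorem Fmap_per (hℓ : 0 < ℓ) (hper : ∀ s, h (s + ℓ) = h s) (s y : ℝ) :
    Fmap ℓ h δ ρ (s + ℓ, y) = Fmap ℓ h δ ρ (s, y) := by
  have e : 2 * Real.pi * (s + ℓ) / ℓ = 2 * Real.pi * s / ℓ + 2 * Real.pi := by
    field_simp
  ext i
  fin_cases i
  · change ρ * Real.exp (2 * Real.pi * δ * h (s + ℓ) * y / ℓ) * Real.cos (2 * Real.pi * (s + ℓ) / ℓ)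
      = ρ * Real.exp (2 * Real.pi * δ * h s * y / ℓ) * Real.cos (2 * Real.pi * s / ℓ)
    rw [hper, e, Real.cos_add_two_pi]
  · change ρ * Real.exp (2 * Real.pi * δ * h (s + ℓ) * y / ℓ) * Real.sin (2 * Real.pi * (s + ℓ) / ℓ)
      = ρ * Real.exp (2 * Real.pi * δ * h s * y / ℓ) * Real.sin (2 * Real.pi * s / ℓ)
    rw [hper, e, Real.sin_add_two_pi]

/-- amplitude -/
noncomputable def amp (ℓ : ℝ) (h : ℝ → ℝ) (δ ρ : ℝ) (z : ℝ × ℝ) : ℝ :=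
  2 * Real.pi / ℓ * (ρ * Real.exp (2 * Real.pi * δ * h z.1 * z.2 / ℓ))

/-- tangential vector -/
noncomputable def ev1 (ℓ : ℝ) (h : ℝ → ℝ) (δ ρ : ℝ) (z : ℝ × ℝ) : PL :=
  !₂[-(amp ℓ h δ ρ z * Real.sin (2 * Real.pi * z.1 / ℓ)),
    amp ℓ h δ ρ z * Real.cos (2 * Real.pi * z.1 / ℓ)]

/-- radial vector -/
noncomputable def ev2 (ℓ : ℝ) (h : ℝ → ℝ) (δ ρ : ℝ) (z : ℝ × ℝ) : PL :=
  !₂[amp ℓ h δ ρ z * Real.cos (2 * Real.pi * z.1 / ℓ),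
    amp ℓ h δ ρ z * Real.sin (2 * Real.pi * z.1 / ℓ)]

theorem amp_pos (hℓ : 0 < ℓ) (hρ : 0 < ρ) (z : ℝ × ℝ) : 0 < amp ℓ h δ ρ z := by
  unfold amp
  have := Real.pi_pos
  positivity

theorem continuous_amp (hh : ContDiff ℝ ∞ h) : Continuous (amp ℓ h δ ρ) := by
  unfold amp
  have h1 : Continuous (fun z : ℝ × ℝ => h z.1) := hh.continuous.comp continuous_fst
  fun_prop

theorem hasDerivAt_s {n : ℕ} {f : ℝ × ℝ → EuclideanSpace ℝ (Fin n)} {z : ℝ × ℝ}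
    (hf : DifferentiableAt ℝ f z) (i : Fin n) :
    HasDerivAt (fun t => f (t, z.2) i) ((fderiv ℝ f z (1, 0)) i) z.1 := by
  have h1 : HasDerivAt (fun t : ℝ => (t, z.2)) ((1 : ℝ), (0 : ℝ)) z.1 :=
    (hasDerivAt_id z.1).prodMk (hasDerivAt_const z.1 z.2)
  have h2 : HasDerivAt (fun t : ℝ => f (t, z.2)) (fderiv ℝ f z (1, 0)) z.1 :=
    HasFDerivAt.comp_hasDerivAt (l := f) (f := fun t : ℝ => (t, z.2)) z.1 hf.hasFDerivAt h1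
  exact ((EuclideanSpace.proj i : EuclideanSpace ℝ (Fin n) →L[ℝ] ℝ).hasFDerivAt).comp_hasDerivAt
    z.1 h2

theorem hasDerivAt_y {n : ℕ} {f : ℝ × ℝ → EuclideanSpace ℝ (Fin n)} {z : ℝ × ℝ}
    (hf : DifferentiableAt ℝ f z) (i : Fin n) :
    HasDerivAt (fun t => f (z.1, t) i) ((fderiv ℝ f z (0, 1)) i) z.2 := by
  have h1 : HasDerivAt (fun t : ℝ => (z.1, t)) ((0 : ℝ), (1 : ℝ)) z.2 :=
    (hasDerivAt_const z.2 z.1).prodMk (hasDerivAt_id z.2)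
  have h2 : HasDerivAt (fun t : ℝ => f (z.1, t)) (fderiv ℝ f z (0, 1)) z.2 :=
    HasFDerivAt.comp_hasDerivAt (l := f) (f := fun t : ℝ => (z.1, t)) z.2 hf.hasFDerivAt h1
  exact ((EuclideanSpace.proj i : EuclideanSpace ℝ (Fin n) →L[ℝ] ℝ).hasFDerivAt).comp_hasDerivAt
    z.2 h2

theorem fderiv_s (hh : ContDiff ℝ ∞ h) (hℓ : 0 < ℓ) (z : ℝ × ℝ) :
    fderiv ℝ (Fmap ℓ h δ ρ) z (1, 0) =
      ev1 ℓ h δ ρ z + (δ * deriv h z.1 * z.2) • ev2 ℓ h δ ρ z := by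
  have hd : DifferentiableAt ℝ (Fmap ℓ h δ ρ) z :=
    ((contDiff_Fmap hh ℓ δ ρ).differentiable (by simp)).differentiableAt
  have hh' : HasDerivAt h (deriv h z.1) z.1 :=
    ((hh.differentiable (by simp)).differentiableAt).hasDerivAt
  have hE := ((((hh'.const_mul (2 * Real.pi * δ)).mul_const z.2).div_const ℓ).exp.const_mul ρ)
  have hθ : HasDerivAt (fun t : ℝ => 2 * Real.pi * t / ℓ) (2 * Real.pi * 1 / ℓ) z.1 :=
    ((hasDerivAt_id z.1).const_mul (2 * Real.pi)).div_const ℓ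
  ext i
  fin_cases i
  · have h1 := hasDerivAt_s hd 0
    have h2 := hE.mul hθ.cos
    have h3 := h1.unique h2
    change (fderiv ℝ (Fmap ℓ h δ ρ) z (1, 0)) 0 = (ev1 ℓ h δ ρ z) 0 +
      (δ * deriv h z.1 * z.2) * (ev2 ℓ h δ ρ z) 0
    rw [h3]
    simp only [ev1, ev2, amp, PiLp.toLp_apply, Matrix.cons_val_zero]
    field_simp
    ring
  · have h1 := hasDerivAt_s hd 1
    have h2 := hE.mul hθ.sin
    have h3 := h1.unique h2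
    change (fderiv ℝ (Fmap ℓ h δ ρ) z (1, 0)) 1 = (ev1 ℓ h δ ρ z) 1 +
      (δ * deriv h z.1 * z.2) * (ev2 ℓ h δ ρ z) 1
    rw [h3]
    simp only [ev1, ev2, amp, PiLp.toLp_apply, Matrix.cons_val_one, Matrix.cons_val_fin_one]
    field_simp
    ring

theorem fderiv_y (hh : ContDiff ℝ ∞ h) (hℓ : 0 < ℓ) (z : ℝ × ℝ) :
    fderiv ℝ (Fmap ℓ h δ ρ) z (0, 1) = (δ * h z.1) • ev2 ℓ h δ ρ z := by
  have hd : DifferentiableAt ℝ (Fmap ℓ h δ ρ) z :=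
    ((contDiff_Fmap hh ℓ δ ρ).differentiable (by simp)).differentiableAt
  have hE := (((hasDerivAt_id z.2).const_mul (2 * Real.pi * δ * h z.1)).div_const ℓ).exp.const_mul ρ
  ext i
  fin_cases i
  · have h1 := hasDerivAt_y hd 0
    have h2 := hE.mul_const (Real.cos (2 * Real.pi * z.1 / ℓ))
    have h3 := h1.unique h2
    change (fderiv ℝ (Fmap ℓ h δ ρ) z (0, 1)) 0 = (δ * h z.1) * (ev2 ℓ h δ ρ z) 0
    rw [h3]
    simp only [ev2, amp, PiLp.toLp_apply, Matrix.cons_val_zero, id]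
    field_simp
  · have h1 := hasDerivAt_y hd 1
    have h2 := hE.mul_const (Real.sin (2 * Real.pi * z.1 / ℓ))
    have h3 := h1.unique h2
    change (fderiv ℝ (Fmap ℓ h δ ρ) z (0, 1)) 1 = (δ * h z.1) * (ev2 ℓ h δ ρ z) 1
    rw [h3]
    simp only [ev2, amp, PiLp.toLp_apply, Matrix.cons_val_one, Matrix.cons_val_fin_one, id]
    field_simp

/-! ### pull backs of a vector -/

/-- first component -/
noncomputable def cS (ℓ : ℝ) (h : ℝ → ℝ) (δ ρ : ℝ) (z : ℝ × ℝ) (g : PL) : ℝ :=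
  inner ℝ g (fderiv ℝ (Fmap ℓ h δ ρ) z (1, 0))
/-- second component -/
noncomputable def cY (ℓ : ℝ) (h : ℝ → ℝ) (δ ρ : ℝ) (z : ℝ × ℝ) (g : PL) : ℝ :=
  inner ℝ g (fderiv ℝ (Fmap ℓ h δ ρ) z (0, 1))

theorem cS_eq (hh : ContDiff ℝ ∞ h) (hℓ : 0 < ℓ) (z : ℝ × ℝ) (g : PL) :
    cS ℓ h δ ρ z g = inner ℝ g (ev1 ℓ h δ ρ z) + δ * deriv h z.1 * z.2 * inner ℝ g (ev2 ℓ h δ ρ z) := by
  unfold cS
  rw [fderiv_s hh hℓ, inner_add_right, inner_smul_right]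

theorem cY_eq (hh : ContDiff ℝ ∞ h) (hℓ : 0 < ℓ) (z : ℝ × ℝ) (g : PL) :
    cY ℓ h δ ρ z g = δ * h z.1 * inner ℝ g (ev2 ℓ h δ ρ z) := by
  unfold cY
  rw [fderiv_y hh hℓ, inner_smul_right]

theorem inner_ev1 (z : ℝ × ℝ) (g : PL) : inner ℝ g (ev1 ℓ h δ ρ z) = amp ℓ h δ ρ z *
    (-(g 0 * Real.sin (2 * Real.pi * z.1 / ℓ)) + g 1 * Real.cos (2 * Real.pi * z.1 / ℓ)) := by
  rw [inner2]
  simp only [ev1, PiLp.toLp_apply, Matrix.cons_val_zero, Matrix.cons_val_one,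
    Matrix.cons_val_fin_one]
  ring

theorem inner_ev2 (z : ℝ × ℝ) (g : PL) : inner ℝ g (ev2 ℓ h δ ρ z) = amp ℓ h δ ρ z *
    (g 0 * Real.cos (2 * Real.pi * z.1 / ℓ) + g 1 * Real.sin (2 * Real.pi * z.1 / ℓ)) := by
  rw [inner2]
  simp only [ev2, PiLp.toLp_apply, Matrix.cons_val_zero, Matrix.cons_val_one,
    Matrix.cons_val_fin_one]
  ring

/-- Pythagoras -/
theorem pyth (z : ℝ × ℝ) (g : PL) : inner ℝ g (ev1 ℓ h δ ρ z) ^ 2 + inner ℝ g (ev2 ℓ h δ ρ z) ^ 2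
    = amp ℓ h δ ρ z ^ 2 * ‖g‖ ^ 2 := by
  rw [inner_ev1, inner_ev2, norm2]
  have := Real.sin_sq_add_cos_sq (2 * Real.pi * z.1 / ℓ)
  linear_combination amp ℓ h δ ρ z ^ 2 * (g 0 ^ 2 + g 1 ^ 2) * this

/-- the field with prescribed components -/
noncomputable def vmk (ℓ : ℝ) (h : ℝ → ℝ) (δ ρ : ℝ) (z : ℝ × ℝ) (v w : ℝ) : PL :=
  !₂[((-(v - deriv h z.1 / h z.1 * z.2 * w)) * Real.sin (2 * Real.pi * z.1 / ℓ) +
      w / (δ * h z.1) * Real.cos (2 * Real.pi * z.1 / ℓ)) / amp ℓ h δ ρ z,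
    ((v - deriv h z.1 / h z.1 * z.2 * w) * Real.cos (2 * Real.pi * z.1 / ℓ) +
      w / (δ * h z.1) * Real.sin (2 * Real.pi * z.1 / ℓ)) / amp ℓ h δ ρ z]

theorem inner_mk_ev1 (hℓ : 0 < ℓ) (hρ : 0 < ρ) (z : ℝ × ℝ) (v w : ℝ) :
    inner ℝ (vmk ℓ h δ ρ z v w) (ev1 ℓ h δ ρ z) = v - deriv h z.1 / h z.1 * z.2 * w := by
  have h0 := (amp_pos (h := h) (δ := δ) hℓ hρ z).ne'
  have h1 := Real.sin_sq_add_cos_sq (2 * Real.pi * z.1 / ℓ)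
  rw [inner_ev1]
  simp only [vmk, PiLp.toLp_apply, Matrix.cons_val_zero, Matrix.cons_val_one,
    Matrix.cons_val_fin_one]
  generalize deriv h z.1 / h z.1 * z.2 * w = b
  generalize w / (δ * h z.1) = c
  generalize Real.sin (2 * Real.pi * z.1 / ℓ) = S at *
  generalize Real.cos (2 * Real.pi * z.1 / ℓ) = D at *
  field_simp
  linear_combination (v - b) * h1

theorem inner_mk_ev2 (hℓ : 0 < ℓ) (hρ : 0 < ρ) (z : ℝ × ℝ) (v w : ℝ) :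
    inner ℝ (vmk ℓ h δ ρ z v w) (ev2 ℓ h δ ρ z) = w / (δ * h z.1) := by
  have h0 := (amp_pos (h := h) (δ := δ) hℓ hρ z).ne'
  have h1 := Real.sin_sq_add_cos_sq (2 * Real.pi * z.1 / ℓ)
  rw [inner_ev2]
  simp only [vmk, PiLp.toLp_apply, Matrix.cons_val_zero, Matrix.cons_val_one,
    Matrix.cons_val_fin_one]
  generalize deriv h z.1 / h z.1 * z.2 * w = b
  generalize w / (δ * h z.1) = c
  generalize Real.sin (2 * Real.pi * z.1 / ℓ) = S at *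
  generalize Real.cos (2 * Real.pi * z.1 / ℓ) = D at *
  field_simp
  linear_combination c * h1

theorem cS_mk (hh : ContDiff ℝ ∞ h) (hℓ : 0 < ℓ) (hρ : 0 < ρ) (hδ : 0 < δ)
    (hpos : ∀ s, 0 < h s) (z : ℝ × ℝ) (v w : ℝ) : cS ℓ h δ ρ z (vmk ℓ h δ ρ z v w) = v := by
  rw [cS_eq hh hℓ, inner_mk_ev1 hℓ hρ, inner_mk_ev2 hℓ hρ]
  have := (hpos z.1).ne'
  field_simp
  ring

theorem cY_mk (hh : ContDiff ℝ ∞ h) (hℓ : 0 < ℓ) (hρ : 0 < ρ) (hδ : 0 < δ)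
    (hpos : ∀ s, 0 < h s) (z : ℝ × ℝ) (v w : ℝ) : cY ℓ h δ ρ z (vmk ℓ h δ ρ z v w) = w := by
  rw [cY_eq hh hℓ, inner_mk_ev2 hℓ hρ]
  have := (hpos z.1).ne'
  field_simp

/-- two sided comparison -/
theorem comp_le (hh : ContDiff ℝ ∞ h) (hℓ : 0 < ℓ) (hρ : 0 < ρ) (hδ : 0 < δ)
    (hpos : ∀ s, 0 < h s) : ∃ C > 0, ∀ z ∈ cell ℓ, ∀ g : PL,
      cS ℓ h δ ρ z g ^ 2 + cY ℓ h δ ρ z g ^ 2 ≤ C * ‖g‖ ^ 2 ∧
      ‖g‖ ^ 2 ≤ C * (cS ℓ h δ ρ z g ^ 2 + cY ℓ h δ ρ z g ^ 2) := by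
  have hc := hh.continuous
  have hc' : Continuous (deriv h) := hh.continuous_deriv (by simp)
  obtain ⟨A, hA, hA'⟩ := exists_bd (continuous_amp (ℓ := ℓ) (δ := δ) (ρ := ρ) hh) ℓ
  obtain ⟨a, ha, ha'⟩ := exists_lb (continuous_amp (ℓ := ℓ) (δ := δ) (ρ := ρ) hh)
    (amp_pos hℓ hρ) ℓ
  obtain ⟨B, hB, hB'⟩ := exists_bd (k := fun z => δ * deriv h z.1 * z.2) (by fun_prop) ℓ
  obtain ⟨D, hD, hD'⟩ := exists_bd (k := fun z => δ * h z.1) (by fun_prop) ℓ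
  obtain ⟨d, hd, hd'⟩ := exists_lb (k := fun z => δ * h z.1) (by fun_prop)
    (fun z => mul_pos hδ (hpos _)) ℓ
  refine ⟨(2 + 2 * B ^ 2 + D ^ 2) * A ^ 2 + (2 + (2 * B ^ 2 + 1) / d ^ 2) / a ^ 2, by positivity,
    fun z hz g => ?_⟩
  have e1 := cS_eq (δ := δ) (ρ := ρ) hh hℓ z g
  have e2 := cY_eq (δ := δ) (ρ := ρ) hh hℓ z g
  have e3 := pyth (ℓ := ℓ) (h := h) (δ := δ) (ρ := ρ) z g
  set x := inner ℝ g (ev1 ℓ h δ ρ z)
  set y := inner ℝ g (ev2 ℓ h δ ρ z)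
  set v := cS ℓ h δ ρ z g
  set w := cY ℓ h δ ρ z g
  set b := δ * deriv h z.1 * z.2
  set k := δ * h z.1
  have hb : b ^ 2 ≤ B ^ 2 := sq_le_sq' (abs_le.1 (hB' z hz)).1 (abs_le.1 (hB' z hz)).2
  have hk : k ^ 2 ≤ D ^ 2 := sq_le_sq' (abs_le.1 (hD' z hz)).1 (abs_le.1 (hD' z hz)).2
  have hk2 : d ^ 2 ≤ k ^ 2 := by
    have := hd' z hz
    exact pow_le_pow_left₀ hd.le this 2
  have hM : amp ℓ h δ ρ z ^ 2 ≤ A ^ 2 := sq_le_sq' (abs_le.1 (hA' z hz)).1 (abs_le.1 (hA' z hz)).2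
  have hm : a ^ 2 ≤ amp ℓ h δ ρ z ^ 2 := pow_le_pow_left₀ ha.le (ha' z hz) 2
  have hg : 0 ≤ ‖g‖ ^ 2 := by positivity
  constructor
  · have h1 : v ^ 2 + w ^ 2 ≤ (2 + 2 * B ^ 2 + D ^ 2) * (x ^ 2 + y ^ 2) := by
      rw [e1, e2]
      have h2 : (x + b * y) ^ 2 ≤ 2 * x ^ 2 + 2 * (b ^ 2 * y ^ 2) := by nlinarith [sq_nonneg (x - b * y)]
      have h3 : b ^ 2 * y ^ 2 ≤ B ^ 2 * y ^ 2 := mul_le_mul_of_nonneg_right hb (sq_nonneg y)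
      have h4 : k ^ 2 * y ^ 2 ≤ D ^ 2 * y ^ 2 := mul_le_mul_of_nonneg_right hk (sq_nonneg y)
      nlinarith [sq_nonneg x, sq_nonneg y, mul_nonneg (sq_nonneg B) (sq_nonneg x),
        mul_nonneg (sq_nonneg D) (sq_nonneg x)]
    rw [e3] at h1
    refine h1.trans ?_
    have h5 : (2 + 2 * B ^ 2 + D ^ 2) * (amp ℓ h δ ρ z ^ 2 * ‖g‖ ^ 2) ≤
        (2 + 2 * B ^ 2 + D ^ 2) * A ^ 2 * ‖g‖ ^ 2 := by
      rw [mul_assoc]
      exact mul_le_mul_of_nonneg_left (mul_le_mul_of_nonneg_right hM hg) (by positivity)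
    refine h5.trans ?_
    refine mul_le_mul_of_nonneg_right ?_ hg
    have : 0 ≤ (2 + (2 * B ^ 2 + 1) / d ^ 2) / a ^ 2 := by positivity
    linarith
  · have hy : y ^ 2 ≤ w ^ 2 / d ^ 2 := by
      rw [le_div_iff₀ (by positivity), e2, mul_pow]
      nlinarith [mul_le_mul_of_nonneg_left hk2 (sq_nonneg y)]
    have hx : x ^ 2 ≤ 2 * v ^ 2 + 2 * (B ^ 2 * (w ^ 2 / d ^ 2)) := by
      have h1 : x = v - b * y := by rw [e1]; ring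
      have h2 : x ^ 2 ≤ 2 * v ^ 2 + 2 * (b ^ 2 * y ^ 2) := by
        rw [h1]; nlinarith [sq_nonneg (v + b * y)]
      have h3 : b ^ 2 * y ^ 2 ≤ B ^ 2 * (w ^ 2 / d ^ 2) := mul_le_mul hb hy (sq_nonneg y) (sq_nonneg B)
      linarith
    have h1 : a ^ 2 * ‖g‖ ^ 2 ≤ (2 + (2 * B ^ 2 + 1) / d ^ 2) * (v ^ 2 + w ^ 2) := by
      have h2 : a ^ 2 * ‖g‖ ^ 2 ≤ x ^ 2 + y ^ 2 := by
        rw [e3]
        exact mul_le_mul_of_nonneg_right hm hg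
      refine h2.trans ((add_le_add hx hy).trans ?_)
      have h3 : (2 + (2 * B ^ 2 + 1) / d ^ 2) * (v ^ 2 + w ^ 2) =
          2 * v ^ 2 + 2 * (B ^ 2 * (w ^ 2 / d ^ 2)) + w ^ 2 / d ^ 2 + 2 * w ^ 2 +
            (2 * B ^ 2 + 1) / d ^ 2 * v ^ 2 := by ring
      rw [h3]
      have : 0 ≤ (2 * B ^ 2 + 1) / d ^ 2 * v ^ 2 := by positivity
      nlinarith [sq_nonneg w]
    have h2 : ‖g‖ ^ 2 ≤ (2 + (2 * B ^ 2 + 1) / d ^ 2) / a ^ 2 * (v ^ 2 + w ^ 2) := by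
      rw [div_mul_eq_mul_div, le_div_iff₀ (by positivity)]
      linarith
    refine h2.trans ?_
    refine mul_le_mul_of_nonneg_right ?_ (by positivity)
    have : 0 ≤ (2 + 2 * B ^ 2 + D ^ 2) * A ^ 2 := by positivity
    linarith

end map

end Pool.Agent.Lib.MP_e46711_an.H24
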